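import Mathlib

namespace Pool.Agent.Results.MP_61d686_an.Counter

open Set Filter Topology MeasureTheory

/-- The achievement set of the sequence obtained from `x` by deleting the terms with index
in `A`: all sums `∑ ε_n x_n` with `ε_n ∈ {0,1}` and `ε_n = 0` on `A`. -/
def ach (x : ℕ → ℝ) (A : Set ℕ) : Set ℝ :=
  {s | ∃ ε : ℕ → Bool, (∀ n ∈ A, ε n = false) ∧ s = ∑' n, if ε n then x n else 0}

/-- The tail `r_n = ∑_{k > n} x_k`. -/
noncomputable def r (x : ℕ → ℝ) (n : ℕ) : ℝ := ∑' k, x (k + (n + 1))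

/-- The points of `E` forming one-point components of `E`. -/
def onePt (E : Set ℝ) : Set ℝ := {c | c ∈ E ∧ connectedComponentIn E c = {c}}

/-- Cantorvals. -/
def IsCantorval (E : Set ℝ) : Prop :=
  E.Nonempty ∧ IsCompact E ∧ closure (interior E) = E ∧
    ∀ a b, a < b → (∃ p ∈ E, connectedComponentIn E p = Icc a b) →
      AccPt a (𝓟 (onePt E)) ∧ AccPt b (𝓟 (onePt E))

/-- The representation `x` of `ach x ∅` is minimal. -/
def IsMinimalRep (x : ℕ → ℝ) : Prop :=
  ∀ A : Set ℕ, A.Infinite → ¬ Nonempty (ach x A ≃ₜ ach x ∅)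

/-- The witness `6/8, 5/8, 4/8, 6/64, 5/64, 4/64, …`. -/
noncomputable def x0 (n : ℕ) : ℝ := (6 - (n % 3 : ℕ)) / 8 ^ (n / 3 + 1)

lemma x0_shift (i n : ℕ) : x0 (i + 3 * n) = x0 i / 8 ^ n := by
  unfold x0
  rw [Nat.add_mul_mod_self_left, Nat.add_mul_div_left _ _ (by norm_num : 0 < 3)]
  field_simp
  ring

lemma x0_0 : x0 0 = 6 / 8 := by norm_num [x0]
lemma x0_1 : x0 1 = 5 / 8 := by norm_num [x0]
lemma x0_2 : x0 2 = 4 / 8 := by norm_num [x0]

lemma x0_pos (n : ℕ) : 0 < x0 n := by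
  unfold x0
  have : ((n % 3 : ℕ) : ℝ) < 3 := by exact_mod_cast Nat.mod_lt n (by norm_num)
  apply div_pos (by linarith) (by positivity)

lemma cases3 (n : ℕ) : ∃ j, n = 0 + 3 * j ∨ n = 1 + 3 * j ∨ n = 2 + 3 * j := ⟨n / 3, by omega⟩

lemma x0_anti : Antitone x0 := by
  apply antitone_nat_of_succ_le
  intro n
  obtain ⟨j, rfl | rfl | rfl⟩ := cases3 n
  · rw [show 0 + 3 * j + 1 = 1 + 3 * j by ring, x0_shift, x0_shift, x0_0, x0_1]
    gcongr; norm_num
  · rw [show 1 + 3 * j + 1 = 2 + 3 * j by ring, x0_shift, x0_shift, x0_2, x0_1]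
    gcongr; norm_num
  · rw [show 2 + 3 * j + 1 = 0 + 3 * (j + 1) by ring, x0_shift, x0_shift, x0_2, x0_0, pow_succ',
      ← div_div]
    gcongr; norm_num

lemma x0_summ : Summable x0 := by
  refine Summable.of_nonneg_of_le (fun n => (x0_pos n).le) (fun n => ?_)
    (summable_geometric_two.mul_left 2)
  obtain ⟨j, h⟩ := cases3 n
  have e : ∀ i : ℕ, ((1 : ℝ) / 2) ^ (i + 3 * j) = (1 / 2) ^ i / 8 ^ j := by
    intro i
    rw [pow_add, pow_mul, div_eq_mul_inv ((1 / 2 : ℝ) ^ i), ← inv_pow]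
    norm_num
  rcases h with rfl | rfl | rfl
  · rw [x0_shift, e, x0_0, ← mul_div_assoc]; gcongr; norm_num
  · rw [x0_shift, e, x0_1, ← mul_div_assoc]; gcongr; norm_num
  · rw [x0_shift, e, x0_2, ← mul_div_assoc]; gcongr; norm_num

noncomputable def φ (ε : ℕ → Bool) : ℝ := ∑' n, if ε n then x0 n else 0

noncomputable def P (n : ℕ) (ε : ℕ → Bool) : ℝ :=
  ∑ i ∈ Finset.range (3 * n), if ε i then x0 i else 0

lemma term_nonneg (ε : ℕ → Bool) (n : ℕ) : 0 ≤ (if ε n then x0 n else 0) := by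
  split_ifs
  · exact (x0_pos n).le
  · exact le_rfl

lemma term_le (ε : ℕ → Bool) (n : ℕ) : (if ε n then x0 n else 0) ≤ x0 n := by
  split_ifs
  · exact le_rfl
  · exact (x0_pos n).le

lemma summ (ε : ℕ → Bool) : Summable fun n => if ε n then x0 n else 0 :=
  Summable.of_nonneg_of_le (term_nonneg ε) (term_le ε) x0_summ

lemma φ_dec (n : ℕ) (ε : ℕ → Bool) : φ ε = P n ε + φ (fun i => ε (i + 3 * n)) / 8 ^ n := by
  unfold φ P
  rw [← (summ ε).sum_add_tsum_nat_add (3 * n), ← tsum_div_const]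
  congr 1
  refine tsum_congr fun i => ?_
  split_ifs
  · exact x0_shift i n
  · simp

lemma P_one (ε : ℕ → Bool) : P 1 ε = (if ε 0 then 6 / 8 else 0) + (if ε 1 then 5 / 8 else 0)
    + (if ε 2 then 4 / 8 else 0) := by
  simp [P, Finset.sum_range_succ, x0_0, x0_1, x0_2]

lemma tsum_x0 : ∑' n, x0 n = 15 / 7 := by
  have h := φ_dec 1 (fun _ => true)
  rw [P_one] at h
  simp only [φ, if_true] at h
  linarith

lemma φ_nonneg (ε : ℕ → Bool) : 0 ≤ φ ε := tsum_nonneg (term_nonneg ε)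

lemma φ_le (ε : ℕ → Bool) : φ ε ≤ 15 / 7 := by
  rw [← tsum_x0]; exact (summ ε).tsum_le_tsum (term_le ε) x0_summ

def E : Set ℝ := range φ

lemma E_eq : ach x0 ∅ = E := by
  ext s
  constructor
  · rintro ⟨ε, -, h⟩; exact ⟨ε, h.symm⟩
  · rintro ⟨ε, h⟩; exact ⟨ε, fun n hn => absurd hn (notMem_empty n), h.symm⟩

lemma P_add_mem (n : ℕ) (ε : ℕ → Bool) {e : ℝ} (he : e ∈ E) : P n ε + e / 8 ^ n ∈ E := by
  obtain ⟨δ, rfl⟩ := he
  refine ⟨fun i => if i < 3 * n then ε i else δ (i - 3 * n), ?_⟩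
  rw [φ_dec n]
  congr 1
  · refine Finset.sum_congr rfl fun i hi => ?_
    simp [Finset.mem_range.1 hi]
  · congr 2
    funext i
    simp

lemma zero_mem : (0 : ℝ) ∈ E := ⟨fun _ => false, by simp [φ]⟩

lemma P_int (n : ℕ) (ε : ℕ → Bool) : ∃ m : ℤ, P n ε = m / 8 ^ n := by
  have : ∀ i < 3 * n, ∃ m : ℤ, (if ε i then x0 i else 0) = m / 8 ^ n := by
    intro i hi
    split_ifs
    · obtain ⟨d, rfl⟩ : ∃ d, n = i / 3 + 1 + d := ⟨n - (i / 3 + 1), by omega⟩
      refine ⟨(6 - (i % 3 : ℕ)) * 8 ^ d, ?_⟩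
      unfold x0
      generalize i % 3 = q
      push_cast
      field_simp
      ring
    · exact ⟨0, by simp⟩
  choose! m hm using this
  refine ⟨∑ i ∈ Finset.range (3 * n), m i, ?_⟩
  unfold P
  push_cast
  rw [Finset.sum_div]
  exact Finset.sum_congr rfl fun i hi => hm i (Finset.mem_range.1 hi)

lemma gap : (2 / 5 : ℝ) ∉ E := by
  rintro ⟨ε, h⟩
  rw [φ_dec 1, P_one] at h
  have h1 := φ_nonneg (fun i => ε (i + 3 * 1))
  have h2 := φ_le (fun i => ε (i + 3 * 1))
  split_ifs at h <;> linarith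

lemma symm_mem {s : ℝ} (h : s ∈ E) : 15 / 7 - s ∈ E := by
  obtain ⟨ε, rfl⟩ := h
  refine ⟨fun i => !ε i, ?_⟩
  rw [← tsum_x0, eq_sub_iff_add_eq]
  unfold φ
  rw [← (summ _).tsum_add (summ _)]
  refine tsum_congr fun i => ?_
  cases ε i <;> simp

lemma E_compact : IsCompact E := by
  apply isCompact_range
  refine continuous_tsum (fun i => ?_) x0_summ fun i ε => ?_
  · exact (continuous_of_discreteTopology
      (f := fun b : Bool => if b then x0 i else 0)).comp (continuous_apply i)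
  · rw [Real.norm_of_nonneg (term_nonneg ε i)]; exact term_le ε i

lemma small (δ : ℝ) (hδ : 0 < δ) : ∃ n : ℕ, 15 / 7 / 8 ^ n < δ := by
  obtain ⟨n, hn⟩ := pow_unbounded_of_one_lt (15 / 7 / δ) (by norm_num : (1 : ℝ) < 8)
  refine ⟨n, ?_⟩
  rw [div_lt_iff₀ hδ] at hn
  rw [div_lt_iff₀ (by positivity)]
  linarith

lemma keyL {c δ : ℝ} (hc : c ∈ E) (hδ : 0 < δ) (hg : ∀ z ∈ E, z < c → z ≤ c - δ) (η : ℝ)
    (hη : 0 < η) : ∃ z, c < z ∧ z < c + η ∧ z ∉ E := by
  obtain ⟨n, hn⟩ := small (min δ η) (lt_min hδ hη)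
  have h8 : (0 : ℝ) < 8 ^ n := by positivity
  have hn1 := hn.trans_le (min_le_left _ _)
  have hn2 := hn.trans_le (min_le_right _ _)
  have hP : ∀ ε, P n ε ∈ E := fun ε => by simpa using P_add_mem n ε zero_mem
  have hb : ∀ ε, 0 ≤ φ ε / 8 ^ n ∧ φ ε / 8 ^ n ≤ 15 / 7 / 8 ^ n := fun ε =>
    ⟨div_nonneg (φ_nonneg ε) h8.le, by gcongr; exact φ_le ε⟩
  have h25 : (0 : ℝ) < 2 / 5 / 8 ^ n := by positivity
  have h26 : (2 : ℝ) / 5 / 8 ^ n ≤ 15 / 7 / 8 ^ n :=
    div_le_div_of_nonneg_right (by norm_num) h8.le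
  obtain ⟨ε, rfl⟩ := hc
  have hcP : φ ε = P n ε := by
    have h1 := φ_dec n ε
    have h2 := hb (fun i => ε (i + 3 * n))
    by_contra hne
    have := hg _ (hP ε) (lt_of_le_of_ne (by linarith) (Ne.symm hne))
    linarith
  refine ⟨φ ε + 2 / 5 / 8 ^ n, by linarith, by linarith, ?_⟩
  rintro ⟨ε', h'⟩
  have h1 := φ_dec n ε'
  have h2 := hb (fun i => ε' (i + 3 * n))
  rcases lt_trichotomy (P n ε') (φ ε) with h | h | h
  · have := hg _ (hP ε') h
    linarith
  · apply gap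
    refine ⟨fun i => ε' (i + 3 * n), ?_⟩
    have : φ (fun i => ε' (i + 3 * n)) / 8 ^ n = 2 / 5 / 8 ^ n := by linarith
    exact (div_left_inj' h8.ne').1 this
  · obtain ⟨m, hm⟩ := P_int n ε
    obtain ⟨m', hm'⟩ := P_int n ε'
    rw [hcP, hm, hm', div_lt_div_iff_of_pos_right h8, Int.cast_lt] at h
    have h3 : ((m : ℝ) + 1) ≤ m' := by exact_mod_cast h
    have h4 : ((m : ℝ) + 1) / 8 ^ n ≤ m' / 8 ^ n := by gcongr
    have h5 : (2 : ℝ) / 5 / 8 ^ n < 1 / 8 ^ n := by gcongr; norm_num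
    rw [add_div] at h4
    linarith

lemma keyR {c δ : ℝ} (hc : c ∈ E) (hδ : 0 < δ) (hg : ∀ z ∈ E, c < z → c + δ ≤ z) (η : ℝ)
    (hη : 0 < η) : ∃ z, c - η < z ∧ z < c ∧ z ∉ E := by
  obtain ⟨z, h1, h2, h3⟩ := keyL (symm_mem hc) hδ (fun z hz h => by
    have := hg _ (symm_mem hz) (by linarith)
    linarith) η hη
  refine ⟨15 / 7 - z, by linarith, by linarith, fun h => h3 ?_⟩
  simpa using symm_mem h

lemma onePt_of {c : ℝ} (hc : c ∈ E) (hl : ∀ η > 0, ∃ z, c - η < z ∧ z < c ∧ z ∉ E)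
    (hr : ∀ η > 0, ∃ z, c < z ∧ z < c + η ∧ z ∉ E) : c ∈ onePt E := by
  refine ⟨hc, Subset.antisymm (fun y hy => ?_) (singleton_subset_iff.2 (mem_connectedComponentIn hc))⟩
  have hp := isPreconnected_connectedComponentIn (x := c) (F := E)
  have hs := connectedComponentIn_subset E c
  have hcc := mem_connectedComponentIn hc
  rcases lt_trichotomy y c with h | h | h
  · obtain ⟨z, h1, h2, h3⟩ := hl (c - y) (by linarith)
    exact absurd (hs (hp.Icc_subset hy hcc ⟨by linarith, h2.le⟩)) h3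
  · exact h
  · obtain ⟨z, h1, h2, h3⟩ := hr (y - c) (by linarith)
    exact absurd (hs (hp.Icc_subset hcc hy ⟨h1.le, by linarith⟩)) h3

lemma cover (t : ℝ) : ∃ k : ℤ, t - k ∈ E := by
  have dy : ∀ n : ℕ, ∀ m : ℤ, ∃ k : ℤ, (m : ℝ) / 8 ^ n - k ∈ E := by
    intro n
    induction n with
    | zero => intro m; exact ⟨m, by simpa using zero_mem⟩
    | succ n ih =>
      intro m
      obtain ⟨k, hk⟩ := ih m
      have : ∃ (a b c : Bool) (k' : ℤ), k = 8 * k' + (if a then 6 else 0) + (if b then 5 else 0)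
          + (if c then 4 else 0) := by
        have h : k % 8 = 0 ∨ k % 8 = 1 ∨ k % 8 = 2 ∨ k % 8 = 3 ∨ k % 8 = 4 ∨ k % 8 = 5 ∨
          k % 8 = 6 ∨ k % 8 = 7 := by omega
        rcases h with h | h | h | h | h | h | h | h
        · exact ⟨false, false, false, k / 8, by simp; omega⟩
        · exact ⟨false, true, true, k / 8 - 1, by simp; omega⟩
        · exact ⟨true, false, true, k / 8 - 1, by simp; omega⟩
        · exact ⟨true, true, false, k / 8 - 1, by simp; omega⟩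
        · exact ⟨false, false, true, k / 8, by simp; omega⟩
        · exact ⟨false, true, false, k / 8, by simp; omega⟩
        · exact ⟨true, false, false, k / 8, by simp; omega⟩
        · exact ⟨true, true, true, k / 8 - 1, by simp; omega⟩
      obtain ⟨a, b, c, k', rfl⟩ := this
      refine ⟨k', ?_⟩
      have h := P_add_mem 1 (fun i => if i = 0 then a else if i = 1 then b else c) hk
      rw [P_one] at h
      convert h using 1
      rw [pow_succ, ← div_div]
      cases a <;> cases b <;> cases c <;> simp <;> ring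
  have hcl : IsClosed (⋃ k ∈ Finset.Icc (⌊t⌋ - 4) (⌊t⌋ + 1), {s : ℝ | s - (k : ℤ) ∈ E}) :=
    isClosed_biUnion_finset fun k _ =>
      E_compact.isClosed.preimage (continuous_id.sub continuous_const)
  have : t ∈ closure (⋃ k ∈ Finset.Icc (⌊t⌋ - 4) (⌊t⌋ + 1), {s : ℝ | s - (k : ℤ) ∈ E}) := by
    rw [Metric.mem_closure_iff]
    intro η hη
    obtain ⟨n, hn⟩ := small (min η 1) (lt_min hη one_pos)
    have h8 : (0 : ℝ) < 8 ^ n := by positivity
    have hn1 := hn.trans_le (min_le_left _ _)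
    have hn2 := hn.trans_le (min_le_right _ _)
    obtain ⟨k, hk⟩ := dy n ⌊t * 8 ^ n⌋
    have a1 : (⌊t * 8 ^ n⌋ : ℝ) / 8 ^ n ≤ t := by
      rw [div_le_iff₀ h8]; exact Int.floor_le _
    have a2 : t < (⌊t * 8 ^ n⌋ : ℝ) / 8 ^ n + 1 / 8 ^ n := by
      rw [← add_div, lt_div_iff₀ h8]; exact Int.lt_floor_add_one _
    have a3 : (1 : ℝ) / 8 ^ n ≤ 15 / 7 / 8 ^ n := by gcongr; norm_num
    refine ⟨(⌊t * 8 ^ n⌋ : ℝ) / 8 ^ n, ?_, ?_⟩
    · simp only [mem_iUnion]
      refine ⟨k, ?_, hk⟩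
      obtain ⟨ε, hε⟩ := hk
      have b1 := φ_nonneg ε
      have b2 := φ_le ε
      have b3 := Int.floor_le t
      have b4 := Int.lt_floor_add_one t
      rw [Finset.mem_Icc]
      constructor
      · have : ((⌊t⌋ - 4 : ℤ) : ℝ) ≤ k := by push_cast; linarith
        exact_mod_cast this
      · have : (k : ℝ) ≤ ((⌊t⌋ + 1 : ℤ) : ℝ) := by push_cast; linarith
        exact_mod_cast this
    · rw [Real.dist_eq, abs_lt]; constructor <;> linarith
  rw [hcl.closure_eq] at this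
  simp only [mem_iUnion] at this
  obtain ⟨k, -, hk⟩ := this
  exact ⟨k, hk⟩

lemma has_interval : ∃ α β : ℝ, α < β ∧ Ioo α β ⊆ E := by
  obtain ⟨k, y, hy⟩ := nonempty_interior_of_iUnion_of_closed
    (f := fun k : ℤ => {s : ℝ | s - k ∈ E})
    (fun k => E_compact.isClosed.preimage (continuous_id.sub continuous_const))
    (eq_univ_of_forall fun t => mem_iUnion.2 (cover t))
  obtain ⟨a, b, hab, hs⟩ := mem_nhds_iff_exists_Ioo_subset.1 (mem_interior_iff_mem_nhds.1 hy)
  refine ⟨a - k, b - k, by linarith [hab.1, hab.2], fun s hs' => ?_⟩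
  have := hs (show s + k ∈ Ioo a b from ⟨by linarith [hs'.1], by linarith [hs'.2]⟩)
  simpa using this

lemma closure_int : closure (interior E) = E := by
  refine Subset.antisymm (closure_minimal interior_subset E_compact.isClosed) ?_
  rintro _ ⟨ε, rfl⟩
  obtain ⟨α, β, hab, hs⟩ := has_interval
  rw [Metric.mem_closure_iff]
  intro η hη
  obtain ⟨n, hn⟩ := small η hη
  have h8 : (0 : ℝ) < 8 ^ n := by positivity
  have hsub : Ioo (P n ε + α / 8 ^ n) (P n ε + β / 8 ^ n) ⊆ E := by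
    intro z hz
    have h1 : (z - P n ε) * 8 ^ n ∈ Ioo α β :=
      ⟨by rw [← div_lt_iff₀ h8]; linarith [hz.1], by rw [← lt_div_iff₀ h8]; linarith [hz.2]⟩
    have := P_add_mem n ε (hs h1)
    rwa [mul_div_assoc, div_self h8.ne', mul_one, add_sub_cancel] at this
  obtain ⟨ε', hε'⟩ := hs (show (α + β) / 2 ∈ Ioo α β from ⟨by linarith, by linarith⟩)
  refine ⟨P n ε + (α + β) / 2 / 8 ^ n, interior_maximal hsub isOpen_Ioo ⟨?_, ?_⟩, ?_⟩
  · gcongr; linarith
  · gcongr; linarith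
  · have hb : ∀ ε, 0 ≤ φ ε / 8 ^ n ∧ φ ε / 8 ^ n ≤ 15 / 7 / 8 ^ n := fun ε =>
      ⟨div_nonneg (φ_nonneg ε) h8.le, by gcongr; exact φ_le ε⟩
    have h1 := hb ε'
    have h2 := hb (fun i => ε (i + 3 * n))
    rw [← hε', φ_dec n ε, Real.dist_eq, abs_lt]
    constructor <;> linarith

lemma accPt_of {a : ℝ} {S : Set ℝ} (h : ∀ η > 0, ∃ c, (c ∈ Metric.ball a η ∧ c ∈ S) ∧ c ≠ a) :
    AccPt a (𝓟 S) := by
  rw [accPt_iff_nhds]
  intro U hU
  obtain ⟨η, hη, hs⟩ := Metric.mem_nhds_iff.1 hU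
  obtain ⟨c, ⟨h1, h2⟩, h3⟩ := h η hη
  exact ⟨c, ⟨hs h1, h2⟩, h3⟩

lemma cantorval : IsCantorval E := by
  refine ⟨⟨0, zero_mem⟩, E_compact, closure_int, ?_⟩
  rintro a b hab ⟨p, hp, hc⟩
  have hI : Icc a b ⊆ E := hc ▸ connectedComponentIn_subset E p
  have hpI : p ∈ Icc a b := hc ▸ mem_connectedComponentIn hp
  constructor
  · apply accPt_of
    intro η hη
    have : ∃ z, a - η < z ∧ z < a ∧ z ∉ E := by
      by_contra hcon
      push Not at hcon
      have hsub : Icc (a - η / 2) b ⊆ E := fun z hz => by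
        rcases lt_or_ge z a with h | h
        · exact hcon z (by linarith [hz.1]) h
        · exact hI ⟨h, hz.2⟩
      have := isPreconnected_Icc.subset_connectedComponentIn
        (show p ∈ Icc (a - η / 2) b from ⟨by linarith [hpI.1], hpI.2⟩) hsub
      rw [hc] at this
      have := (this ⟨le_rfl, by linarith⟩).1
      linarith
    obtain ⟨z, h1, h2, h3⟩ := this
    obtain ⟨c, ⟨hcE, hcz⟩, hmin⟩ := (E_compact.inter_right (isClosed_Ici (a := z))).exists_isLeast
      ⟨a, hI ⟨le_rfl, hab.le⟩, h2.le⟩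
    have hzc : z < c := lt_of_le_of_ne hcz fun h => h3 (h ▸ hcE)
    have hca : c ≤ a := hmin ⟨hI ⟨le_rfl, hab.le⟩, h2.le⟩
    have hg : ∀ y ∈ E, y < c → y ≤ c - (c - z) := fun y hy h => by
      by_contra hh
      have := hmin ⟨hy, show z ≤ y by linarith⟩
      linarith
    have hR := keyL hcE (by linarith) hg
    refine ⟨c, ⟨?_, onePt_of hcE (fun θ hθ => ?_) hR⟩, ?_⟩
    · rw [Metric.mem_ball, Real.dist_eq, abs_lt]; constructor <;> linarith
    · have hm1 := le_max_left (c - θ) z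
      have hm2 := le_max_right (c - θ) z
      have hm3 : max (c - θ) z < c := max_lt (by linarith) hzc
      refine ⟨(max (c - θ) z + c) / 2, by linarith, by linarith, fun h => ?_⟩
      have := hg _ h (by linarith)
      linarith
    · rintro rfl
      obtain ⟨y, y1, y2, y3⟩ := hR (b - c) (by linarith)
      exact y3 (hI ⟨y1.le, by linarith⟩)
  · apply accPt_of
    intro η hη
    have : ∃ z, b < z ∧ z < b + η ∧ z ∉ E := by
      by_contra hcon
      push Not at hcon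
      have hsub : Icc a (b + η / 2) ⊆ E := fun z hz => by
        rcases lt_or_ge b z with h | h
        · exact hcon z h (by linarith [hz.2])
        · exact hI ⟨hz.1, h⟩
      have := isPreconnected_Icc.subset_connectedComponentIn
        (show p ∈ Icc a (b + η / 2) from ⟨hpI.1, by linarith [hpI.2]⟩) hsub
      rw [hc] at this
      have := (this ⟨by linarith, le_rfl⟩).2
      linarith
    obtain ⟨z, h1, h2, h3⟩ := this
    obtain ⟨c, ⟨hcE, hcz⟩, hmax⟩ :=
      (E_compact.inter_right (isClosed_Iic (a := z))).exists_isGreatest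
      ⟨b, hI ⟨hab.le, le_rfl⟩, h1.le⟩
    have hzc : c < z := lt_of_le_of_ne hcz fun h => h3 (h ▸ hcE)
    have hca : b ≤ c := hmax ⟨hI ⟨hab.le, le_rfl⟩, h1.le⟩
    have hg : ∀ y ∈ E, c < y → c + (z - c) ≤ y := fun y hy h => by
      by_contra hh
      have := hmax ⟨hy, show y ≤ z by linarith⟩
      linarith
    have hL := keyR hcE (by linarith) hg
    refine ⟨c, ⟨?_, onePt_of hcE hL (fun θ hθ => ?_)⟩, ?_⟩
    · rw [Metric.mem_ball, Real.dist_eq, abs_lt]; constructor <;> linarith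
    · have hm1 := min_le_left (c + θ) z
      have hm2 := min_le_right (c + θ) z
      have hm3 : c < min (c + θ) z := lt_min (by linarith) hzc
      refine ⟨(min (c + θ) z + c) / 2, by linarith, by linarith, fun h => ?_⟩
      have := hg _ h (by linarith)
      linarith
    · rintro rfl
      obtain ⟨y, y1, y2, y3⟩ := hL (c - a) (by linarith)
      exact y3 (hI ⟨by linarith, y2.le⟩)

lemma vol_le (A : Set ℕ) (hA : A.Infinite) (a : ℕ) :
    volume (ach x0 A) ≤ ENNReal.ofReal (15 / 7 / 2 ^ a) := by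
  classical
  obtain ⟨S, hS, hcard⟩ := hA.exists_subset_card_eq a
  obtain ⟨n, hn⟩ : ∃ n, S ⊆ Finset.range (3 * n) :=
    ⟨S.sup id + 1, fun i hi => Finset.mem_range.2 (by
      have : i ≤ S.sup id := Finset.le_sup (f := id) hi
      omega)⟩
  have h8 : (0 : ℝ) < 8 ^ n := by positivity
  have hsub : ach x0 A ⊆ ⋃ B ∈ (Finset.range (3 * n) \ S).powerset,
      Icc (∑ i ∈ B, x0 i) (∑ i ∈ B, x0 i + 15 / 7 / 8 ^ n) := by
    rintro _ ⟨ε, hε, rfl⟩
    simp only [mem_iUnion]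
    refine ⟨(Finset.range (3 * n)).filter fun i => ε i, ?_, ?_⟩
    · rw [Finset.mem_powerset]
      intro i hi
      rw [Finset.mem_filter] at hi
      refine Finset.mem_sdiff.2 ⟨hi.1, fun h => ?_⟩
      have := hε i (hS h)
      simp [this] at hi
    · rw [Finset.sum_filter]
      have h1 := φ_dec n ε
      have h2 : 0 ≤ φ (fun i => ε (i + 3 * n)) / 8 ^ n := div_nonneg (φ_nonneg _) h8.le
      have h3 : φ (fun i => ε (i + 3 * n)) / 8 ^ n ≤ 15 / 7 / 8 ^ n := by gcongr; exact φ_le _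
      show φ ε ∈ Icc (P n ε) (P n ε + 15 / 7 / 8 ^ n)
      constructor <;> linarith
  refine (measure_mono hsub).trans ((measure_biUnion_finset_le _ _).trans ?_)
  simp only [Real.volume_Icc, add_sub_cancel_left, Finset.sum_const, Finset.card_powerset,
    Finset.card_sdiff_of_subset hn, Finset.card_range, hcard]
  have hle : a ≤ 3 * n := by
    have := Finset.card_le_card hn
    rwa [hcard, Finset.card_range] at this
  rw [← ENNReal.ofReal_nsmul]
  apply le_of_eq
  congr 1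
  obtain ⟨d, hd⟩ := Nat.exists_eq_add_of_le hle
  have e : (8 : ℝ) ^ n = 2 ^ a * 2 ^ d := by
    rw [← pow_add, ← hd, pow_mul]; norm_num
  rw [hd, Nat.add_sub_cancel_left, e, nsmul_eq_mul]
  push_cast
  field_simp

lemma minimal : IsMinimalRep x0 := by
  rintro A hA ⟨h⟩
  obtain ⟨α, β, hab, hs⟩ := has_interval
  rw [← E_eq] at hs
  let f : Ioo α β → ℝ := fun t => (h.symm (inclusion hs t) : ℝ)
  have hf : Continuous f :=
    continuous_subtype_val.comp (h.symm.continuous.comp (continuous_inclusion hs))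
  have hinj : Function.Injective f :=
    Subtype.val_injective.comp (h.symm.injective.comp (inclusion_injective hs))
  have : PreconnectedSpace (Ioo α β) := Subtype.preconnectedSpace isPreconnected_Ioo
  have hp := isPreconnected_range hf
  have hr : range f ⊆ ach x0 A := by rintro _ ⟨t, rfl⟩; exact (h.symm (inclusion hs t)).2
  have key : ∀ u ∈ range f, ∀ v ∈ range f, u < v → False := by
    intro u hu v hv huv
    obtain ⟨a, ha⟩ := pow_unbounded_of_one_lt (15 / 7 / (v - u)) (by norm_num : (1 : ℝ) < 2)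
    have h1 := (measure_mono ((hp.Icc_subset hu hv).trans hr)).trans (vol_le A hA a)
    rw [Real.volume_Icc, ENNReal.ofReal_le_ofReal_iff (by positivity),
      le_div_iff₀ (by positivity)] at h1
    rw [div_lt_iff₀ (by linarith)] at ha
    linarith
  let t1 : Ioo α β := ⟨(2 * α + β) / 3, by linarith, by linarith⟩
  let t2 : Ioo α β := ⟨(α + 2 * β) / 3, by linarith, by linarith⟩
  rcases lt_trichotomy (f t1) (f t2) with h1 | h1 | h1
  · exact key _ ⟨t1, rfl⟩ _ ⟨t2, rfl⟩ h1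
  · have := congrArg Subtype.val (hinj h1)
    simp only [t1, t2] at this
    linarith
  · exact key _ ⟨t2, rfl⟩ _ ⟨t1, rfl⟩ h1

theorem result : ∃ x : ℕ → ℝ, (∀ n, 0 < x n) ∧ Antitone x ∧ Summable x ∧
    IsCantorval (ach x ∅) ∧ IsMinimalRep x ∧ {n | x n < r x (n + 1)}.Infinite := by
  refine ⟨x0, x0_pos, x0_anti, x0_summ, E_eq ▸ cantorval, minimal, ?_⟩
  refine infinite_of_injective_forall_mem (f := fun j : ℕ => 0 + 3 * j)
    (fun i j h => by simp only at h; omega) fun j => ?_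
  show x0 (0 + 3 * j) < ∑' k, x0 (k + (0 + 3 * j + 1 + 1))
  have e : ∀ k, x0 (k + (0 + 3 * j + 1 + 1)) = x0 (k + 2) / 8 ^ j := fun k => by
    rw [← x0_shift]; congr 1; ring
  simp only [e]
  rw [tsum_div_const, x0_shift]
  have h := x0_summ.sum_add_tsum_nat_add 2
  rw [tsum_x0] at h
  simp only [Finset.sum_range_succ, Finset.range_zero, Finset.sum_empty, x0_0, x0_1] at h
  gcongr
  rw [x0_0]
  linarith

end Pool.Agent.Results.MP_61d686_an.Counter
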